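import Pool.Agent.H13.PC.Rh
import Pool.Agent.H13.PC.Sq
import Pool.Agent.H13.PC.Kf
import Pool.Agent.H13.PC.Ne
import Pool.Agent.H13.TA.Ord

/-!
# MP_1bad5e_ag: the Frobenius eigenvalue `Q` for the surfaces `z ^ (l ^ s) = f(t, x)`, `f(t, x) = 0` a smooth curve with
a separable quasi-homogeneous leading form

`O` is a finitely generated domain (for example a ring of `S`-integers of a number field, a finite field, or a finitely
generated subring of a field), `a`, `b` are positive and coprime, `τ ∈ O[y]` is monic, of degree `M ≥ 1`, with `τ(0) ≠ 0` and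
without multiple roots, and `f ∈ O[t][x]` is a polynomial with the leading form `∑ τ_k x ^ (a k) t ^ (b (M - k))`: all monomials
`t ^ j x ^ i` of `f` satisfy `a j + b i ≤ a b M`, and those with equality form this polynomial. The affine curve `f = 0` is smooth
over the field of fractions of `O`. (`a = b = 1`: the smooth plane curves of degree `M` which meet the line at infinity in `M`
different points, none of them `(1 : 0)` or `(0 : 1)`.)

Theorem: there is `h₀ ≠ 0` in `O` such that for every homomorphism `φ` from `O` to a finite field `F` with `φ h₀ ≠ 0` (for each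
`h ≠ 0` there are even surjective `φ` with `φ h ≠ 0`) the following is true for the reductions `f_φ`, `τ_φ`, a set of primes `l`
of positive lower density and all `s ≥ 1`: let `F' = F(μ)`, `μ` the roots of unity of order `l ^ s'`, `s' ≥ s`, let `Q` be the number of
elements of `F'`, `m` the number of irreducible factors of `τ_φ` over `F'` (the number of closed points at infinity of the curve),
and `N_r` the number of solutions of `z ^ (l ^ s) = f_φ(t, x)` in the field with `Q ^ r` elements; if
`N_r = Q ^ (2 r) + ∑ α ^ r` for all `r ≥ 1`, with a finite family of complex numbers `α` (by Grothendieck and Deligne the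
eigenvalues of Frobenius on the second cohomology with compact support have this property), then at most
`(m - 1) (l ^ s - 1)` of the `α` are equal to `Q`. If all irreducible factors of `τ_φ` over `F` have odd degree, then `m` is also
the number of irreducible factors of `τ_φ` over `F`.
-/

set_option autoImplicit false

namespace Pool.Agent.Results.MP_1bad5e_ag.TatePlaneCurves

open Polynomial

/-- The derivative with respect to `t` of `f ∈ R[t][x]`. -/
noncomputable def derivativeT {R : Type} [CommRing R] (f : R[X][X]) : R[X][X] :=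
  f.sum fun i c => monomial i (derivative c)

/-- The affine curve `f = 0` is smooth: `f` and its partial derivatives generate the unit ideal. -/
def IsSmooth {R : Type} [CommRing R] (f : R[X][X]) : Prop :=
  Ideal.span {f, derivative f, derivativeT f} = ⊤

/-- `f ∈ R[t][x]` has the leading form `∑ τ_k x ^ (a k) t ^ (b (M - k))`, `M` the degree of `τ`: `a`, `b`, `M` are positive,
`a` and `b` are coprime, `τ` is monic, `f` is monic of degree `a M` in `x`, all monomials `t ^ j x ^ i` of `f` satisfy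
`a j + b i ≤ a b M`, and the coefficient of `t ^ (b (M - k)) x ^ (a k)` in `f` is the coefficient of `y ^ k` in `τ`. -/
structure HasLeadingForm {R : Type} [CommRing R] (a b : ℕ) (τ : R[X]) (f : R[X][X]) : Prop where
  a_ne_zero : a ≠ 0
  b_ne_zero : b ≠ 0
  natDegree_ne_zero : τ.natDegree ≠ 0
  coprime : a.Coprime b
  monic_form : τ.Monic
  monic : f.Monic
  natDegree_eq : f.natDegree = a * τ.natDegree
  weight_le : ∀ i, f.coeff i ≠ 0 → a * (f.coeff i).natDegree + b * i ≤ a * b * τ.natDegree
  leading : ∀ k ≤ τ.natDegree, (f.coeff (a * k)).coeff (b * (τ.natDegree - k)) = τ.coeff k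

/-- The polynomial with the coefficients mapped by `φ`. -/
noncomputable def image {R S : Type} [CommRing R] [CommRing S] (φ : R →+* S) (f : R[X][X]) : S[X][X] :=
  f.map (mapRingHom φ)

/-- The value `f(a, b)` for `(a, b) = p` with coordinates in an extension `E` of `F`. -/
noncomputable def value {F : Type} [Field F] {E : Type} [Field E] [Algebra F E] (f : F[X][X])
    (p : E × E) : E :=
  f.eval₂ ((aeval p.1 : F[X] →ₐ[F] E) : F[X] →+* E) p.2

/-- The number of the points of the surface `f(t, x) = z ^ n` with coordinates in the field with `q ^ r` elements, that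
is, with coordinates `y` in an algebraic closure of `F` which satisfy `y ^ (q ^ r) = y`, `q` the number of elements
of `F`. -/
noncomputable def points {F : Type} [Field F] (n : ℕ) (f : F[X][X]) (r : ℕ) : ℕ :=
  Nat.card {p : (AlgebraicClosure F × AlgebraicClosure F) × AlgebraicClosure F //
    value f p.1 = p.2 ^ n ∧ p.1.1 ^ Nat.card F ^ r = p.1.1 ∧ p.1.2 ^ Nat.card F ^ r = p.1.2 ∧
      p.2 ^ Nat.card F ^ r = p.2}

/-- `F` has `q` elements and `q` is a Frobenius eigenvalue of multiplicity at most `k` for the surface `f(t, x) = z ^ n`: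
if the number of its points over the field with `q ^ r` elements is `q ^ (2 r) + ∑ α ^ r` for all `r ≥ 1`, with a finite
multiset of complex numbers `α`, then at most `k` of the `α` are equal to `q`. -/
def MultiplicityLE {F : Type} [Field F] (n : ℕ) (f : F[X][X]) (k : ℕ) : Prop :=
  ∀ A : Multiset ℂ, (∀ r : ℕ, r ≠ 0 →
    (points n f r : ℂ) = (Nat.card F : ℂ) ^ (2 * r) + (A.map fun α => α ^ r).sum) →
    A.count (Nat.card F : ℂ) ≤ k

/-- The primes with the property `P` have positive lower density (Dirichlet density): for some `c > 0`, `C` the sum of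
`l ^ (-s)` over these primes is at least `c log (1 / (s - 1)) - C` for `1 < s ≤ 2`. -/
def PositiveDensity (P : ℕ → Prop) : Prop :=
  ∃ c C : ℝ, 0 < c ∧ ∀ s : ℝ, 1 < s → s ≤ 2 →
    c * Real.log (1 / (s - 1)) - C ≤ ∑' l : {l : ℕ // l.Prime ∧ P l}, ((l : ℕ) : ℝ) ^ (-s)

/-- The number of the monic irreducible factors of `τ`. -/
noncomputable def numberOfFactors {F : Type} [Field F] (τ : F[X]) : ℕ :=
  Nat.card {p : F[X] // p.Monic ∧ Irreducible p ∧ p ∣ τ}

/-- All irreducible factors of `τ` have odd degree. -/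
def OddFactors {F : Type} [Field F] (τ : F[X]) : Prop :=
  ∀ p : F[X], Irreducible p → p ∣ τ → Odd p.natDegree

/-- For each field `F' = F(ζ)`, `ζ` a primitive root of unity of order `l ^ s'`, `s' ≥ 1`: let `m` be the number of monic
irreducible factors of `τ` over `F'`. For each surface `f(t, x) = z ^ (l ^ s)` over `F'`, `1 ≤ s ≤ s'`, the number of elements of
`F'` is a Frobenius eigenvalue of multiplicity at most `(m - 1) (l ^ s - 1)`; and if all irreducible factors of `τ` over `F`
have odd degree, then `m` is the number of monic irreducible factors of `τ` over `F`. -/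
def BoundFor {F : Type} [Field F] (τ : F[X]) (f : F[X][X]) (l : ℕ) : Prop :=
  ∀ (F' : Type) [Field F'] [Finite F'] [Algebra F F'] (s' : ℕ) (ζ : F'), s' ≠ 0 →
    IsPrimitiveRoot ζ (l ^ s') → IntermediateField.adjoin F {ζ} = ⊤ →
    (OddFactors τ → numberOfFactors (τ.map (algebraMap F F')) = numberOfFactors τ) ∧
    ∀ s : ℕ, s ≠ 0 → s ≤ s' → MultiplicityLE (l ^ s) (image (algebraMap F F') f)
      ((numberOfFactors (τ.map (algebraMap F F')) - 1) * (l ^ s - 1))

theorem HasLeadingForm.qh {R : Type} [CommRing R] {a b : ℕ} {τ : R[X]} {f : R[X][X]}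
    (h : HasLeadingForm a b τ f) : H13.PC.Qh a b τ.natDegree τ f :=
  ⟨h.a_ne_zero, h.b_ne_zero, h.natDegree_ne_zero, h.coprime, h.monic_form, rfl, h.monic,
    h.natDegree_eq, h.weight_le, h.leading⟩

/-- the good primes -/
theorem boundFor {F : Type} [Field F] [Finite F] {a b : ℕ} {τ : F[X]} {f : F[X][X]}
    (h : HasLeadingForm a b τ f) (hsm : Ideal.span {f, derivative f, H13.TA.dt f} = ⊤)
    (hτ : τ.Separable) (h0 : τ.coeff 0 ≠ 0) {m : ℕ} {e : Fin m → ℕ} (he : H13.PC.Fct τ e)
    (V : ℤ[X]) (d : ℕ) (hV : H13.PC.IsP f e V d) (l : ℕ) (hl : l.Prime) (hlq : ¬ l ∣ Nat.card F)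
    (hlτ : τ.natDegree < l)
    (hco : OddFactors τ → ∀ i, (orderOf (Nat.card F : ZMod l)).Coprime (e i))
    (hno : ∀ b : ZMod l, (V.map (Int.castRingHom (ZMod l))).eval b = 0 →
      b ^ orderOf (Nat.card F : ZMod l) ≠ 1) : BoundFor τ f l := by
  intro F' _ _ _ s' ζ hs' hζ hgen
  obtain ⟨j, hj⟩ := H13.TA.ordF F F' l s' hl hs' ζ hζ hgen
  have : Fact l.Prime := ⟨hl⟩
  have hq0 : (Nat.card F : ZMod l) ≠ 0 := by
    rw [Ne, ZMod.natCast_eq_zero_iff]
    exact hlq
  have hkl : orderOf (Nat.card F : ZMod l) ∣ l - 1 := ZMod.orderOf_dvd_card_sub_one hq0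
  have hτ' : (τ.map (algebraMap F F')).Separable := hτ.map
  have hle : ∀ {F₁ : Type} [Field F₁] {τ₁ : F₁[X]} {m₁ : ℕ} {e₁ : Fin m₁ → ℕ},
      H13.PC.Fct τ₁ e₁ → τ₁.Monic → τ₁.natDegree < l → ∀ i, ¬ l ∣ e₁ i := by
    intro F₁ _ τ₁ m₁ e₁ h1 h2 h3 i h4
    have h5 := H13.PC.fct_pos h1 i
    obtain ⟨p, h6, -, h7⟩ := h1
    have h8 : p i ∣ τ₁ := by
      rw [← h7]
      exact Finset.dvd_prod_of_mem _ (Finset.mem_univ i)
    have h9 := natDegree_le_of_dvd h8 h2.ne_zero
    rw [(h6 i).2.2] at h9
    exact absurd (Nat.le_of_dvd (Nat.pos_of_ne_zero h5) h4) (by omega)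
  refine ⟨fun ho => ?_, ?_⟩
  · have hdeg : ∀ i, (Module.finrank F F').Coprime (e i) := by
      intro i
      rw [hj]
      exact Nat.Coprime.mul_left (hco ho i)
        (Nat.Coprime.pow_left _ ((Nat.Prime.coprime_iff_not_dvd hl).2 (hle he h.monic_form hlτ i)))
    have h1 : numberOfFactors (τ.map (algebraMap F F')) = m :=
      H13.PC.fct_card (H13.PC.fct_inert he hdeg)
    have h2 : numberOfFactors τ = m := H13.PC.fct_card he
    rw [h1, h2]
  · intro s hs hss
    obtain ⟨m', e', he'⟩ := H13.PC.fct_ex (h.monic_form.map (algebraMap F F')) hτ'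
    have hm' : numberOfFactors (τ.map (algebraMap F F')) = m' := H13.PC.fct_card he'
    have hm0 : m' ≠ 0 := by
      intro h1
      subst h1
      obtain ⟨p, -, -, h1⟩ := he'
      have h2 := h.natDegree_ne_zero
      rw [← h.monic_form.natDegree_map (algebraMap F F'), ← h1] at h2
      simp at h2
    obtain ⟨V', c', hV', -⟩ := H13.PC.exG (H13.PC.qh_map (algebraMap F F') h.qh)
      (H13.TA.bc_smooth hsm) hτ' (by
        rw [coeff_map, Ne, map_eq_zero]
        exact h0) he'
    have hcl := H13.PC.cl1 (H13.PC.fct_ext he hτ he') hV hV' l _ j hl hkl hj hno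
    have hdiv : l ^ s' ∣ Nat.card F' - 1 := by
      have hζ0 : ζ ≠ 0 := hζ.ne_zero (pow_ne_zero _ hl.ne_zero)
      have h1 : ζ ^ (Nat.card F' - 1) = 1 := by
        have := Fintype.ofFinite F'
        rw [Nat.card_eq_fintype_card]
        exact FiniteField.pow_card_sub_one_eq_one ζ hζ0
      exact hζ.dvd_of_pow_eq_one _ h1
    have hdiv' : l ^ s ∣ Nat.card F' - 1 := (pow_dvd_pow l hss).trans hdiv
    intro A hA
    rw [hm']
    refine H13.PC.noeigk hV' hm0 (fun i => H13.PC.fct_pos he' i) l s hl hs hdiv' hcl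
      (hle he' (h.monic_form.map _) ?_) A hA
    rw [h.monic_form.natDegree_map]
    exact hlτ

theorem finite_case {F : Type} [Field F] [Finite F] {a b : ℕ} {τ : F[X]} {f : F[X][X]}
    (h : HasLeadingForm a b τ f) (hsm : Ideal.span {f, derivative f, H13.TA.dt f} = ⊤)
    (hτ : τ.Separable) (h0 : τ.coeff 0 ≠ 0) : PositiveDensity (BoundFor τ f) := by
  obtain ⟨m, e, he⟩ := H13.PC.fct_ex h.monic_form hτ
  obtain ⟨V, d, hV, -⟩ := H13.PC.exG h.qh hsm hτ h0 he
  have hq : 2 ≤ Nat.card F := Finite.one_lt_card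
  have hroots : ∀ γ : ℂ, aeval γ V = 0 → ‖γ‖ = √(Nat.card F : ℝ) := fun γ hγ =>
    H13.PC.rh h.qh hsm hτ h0 he hV γ (by
      rw [mem_aroots]
      exact ⟨hV.monic.ne_zero, hγ⟩)
  obtain ⟨E, hE1, hE2⟩ : ∃ E : ℕ, Odd E ∧ (OddFactors τ → ∀ i, e i ∣ E) := by
    by_cases ho : OddFactors τ
    · refine ⟨∏ i, e i, ?_, fun _ i => Finset.dvd_prod_of_mem _ (Finset.mem_univ i)⟩
      refine Finset.prod_induction e Odd (fun _ _ => Odd.mul) odd_one fun i _ => ?_
      exact H13.PC.fct_odd he ho i
    · exact ⟨1, odd_one, fun h1 => absurd h1 ho⟩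
  have hE := H13.PC.kgd2 V hV.monic (Nat.card F) hq hroots E hE1 (max (Nat.card F) τ.natDegree)
  refine H13.KU.posDens_mono (fun l hl hl2 => ?_) hE
  have hlt1 : Nat.card F < l := lt_of_le_of_lt (le_max_left _ _) hl2.1
  have hlt2 : τ.natDegree < l := lt_of_le_of_lt (le_max_right _ _) hl2.1
  refine boundFor h hsm hτ h0 he V d hV l hl ?_ hlt2 ?_ hl2.2.2
  · intro hd
    exact absurd (Nat.le_of_dvd (by omega) hd) (not_le.2 hlt1)
  · intro ho i
    exact hl2.2.1.coprime_dvd_right (hE2 ho i)

/-- **Theorem.** -/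
theorem result (O : Type) [CommRing O] [IsDomain O] [Algebra.FiniteType ℤ O] (a b : ℕ)
    (τ : O[X]) (f : O[X][X]) (hf : HasLeadingForm a b τ f)
    (hs : IsSmooth (image (algebraMap O (FractionRing O)) f))
    (hτ : (τ.map (algebraMap O (FractionRing O))).Separable) (h0 : τ.coeff 0 ≠ 0) :
    (∀ h : O, h ≠ 0 → ∃ (F : Type) (_ : Field F) (_ : Finite F) (φ : O →+* F),
      Function.Surjective φ ∧ φ h ≠ 0) ∧
    ∃ h₀ : O, h₀ ≠ 0 ∧ ∀ (F : Type) [Field F] [Finite F] (φ : O →+* F), φ h₀ ≠ 0 →
      HasLeadingForm a b (τ.map φ) (image φ f) ∧ IsSmooth (image φ f) ∧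
      (τ.map φ).Separable ∧ (τ.map φ).coeff 0 ≠ 0 ∧
      PositiveDensity fun l => BoundFor (τ.map φ) (image φ f) l := by
  refine ⟨fun h hh => H13.CB.jac O h hh, ?_⟩
  obtain ⟨h₀, hne, h1⟩ := H13.PC.spU O a b τ.natDegree τ f hf.qh hτ h0 hs
  refine ⟨h₀, hne, fun F _ _ φ hφ => ?_⟩
  obtain ⟨h2, h3, h4, h5⟩ := h1 F φ hφ
  have hd : (τ.map φ).natDegree = τ.natDegree := h2.tdeg
  have h6 : HasLeadingForm a b (τ.map φ) (image φ f) := by
    refine ⟨h2.ha, h2.hb, ?_, h2.cop, h2.tmon, h2.monic, ?_, ?_, ?_⟩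
    · rw [hd]
      exact h2.hM
    · rw [hd]
      exact h2.deg
    · rw [hd]
      exact h2.wt
    · rw [hd]
      exact h2.top
  exact ⟨h6, h5, h3, h4, finite_case h6 h5 h3 h4⟩

end Pool.Agent.Results.MP_1bad5e_ag.TatePlaneCurves
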